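import Pool.Agent.H29.HMF.Stmts2

set_option autoImplicit false

open Matrix MeasureTheory

namespace Pool.HMF

open Pool.HMG (flat flats)

theorem gfb_oinv (k : S2) (h : k.1 * k.1ᵀ = 1) :
    (k⁻¹ : S2).1 * (k⁻¹ : S2).1ᵀ = 1 ∧ k.1 * (k⁻¹ : S2).1 = 1 := by
  have h1 : (k⁻¹ : S2).1 * k.1 = 1 := by
    have : (k⁻¹ * k : S2) = 1 := inv_mul_cancel k
    exact congrArg Subtype.val this
  have h2 : k.1 * (k⁻¹ : S2).1 = 1 := by
    have : (k * k⁻¹ : S2) = 1 := mul_inv_cancel k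
    exact congrArg Subtype.val this
  have h3 : (k⁻¹ : S2).1 = k.1ᵀ := by
    calc (k⁻¹ : S2).1 = (k⁻¹ : S2).1 * (k.1 * k.1ᵀ) := by rw [h, Matrix.mul_one]
      _ = ((k⁻¹ : S2).1 * k.1) * k.1ᵀ := (Matrix.mul_assoc _ _ _).symm
      _ = k.1ᵀ := by rw [h1, Matrix.one_mul]
  refine ⟨?_, h2⟩
  have h4 : (k⁻¹ : S2).1ᵀ = k.1 := by rw [h3, Matrix.transpose_transpose]
  rw [h4]
  exact h1

theorem gfb_omul (k k' : S2) (h : k.1 * k.1ᵀ = 1) (h' : k'.1 * k'.1ᵀ = 1) :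
    (k * k' : S2).1 * (k * k' : S2).1ᵀ = 1 := by
  have h1 : (k * k' : S2).1 = k.1 * k'.1 := rfl
  rw [h1, Matrix.transpose_mul, Matrix.mul_assoc, ← Matrix.mul_assoc k'.1, h', Matrix.one_mul, h]

theorem gfb_mon (dat : DATS) (Γ : Subgroup HM) (g M : Fin 2 → S2) (p : Fin 2 → Bool)
    (hM : ∀ i, Mon (p i) (M i).1) :
    flat Γ (fun i => g i * M i) Set.univ = flat Γ g Set.univ := by
  choose t ht _ using fun i => dat (M i) (p i) (hM i)
  have hsg : ∀ b : Bool, sg b * sg b = 1 := by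
    intro b
    unfold sg
    cases b <;> norm_num
  ext h
  constructor
  · rintro ⟨γ, hγ, v, -, hv⟩
    refine ⟨γ, hγ, fun i => sg (p i) * v i + t i, Set.mem_univ _, fun i => ?_⟩
    obtain ⟨k, hk, hh⟩ := hv i
    obtain ⟨k', hk', hh'⟩ := ht i (v i)
    refine ⟨k' * k, gfb_omul _ _ hk' hk, ?_⟩
    have e1 : (g i * M i : S2).1 = (g i).1 * (M i).1 := rfl
    have e2 : (k' * k : S2).1 = k'.1 * k.1 := rfl
    have hh2 : (M i).1 * Pool.HMG.dg (v i) = Pool.HMG.dg (sg (p i) * v i + t i) * k'.1 := hh'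
    rw [hh, e1, e2]
    calc γ.1.map (Pool.HMG.em i) * ((g i).1 * (M i).1) * Pool.HMG.dg (v i) * k.1
        = γ.1.map (Pool.HMG.em i) * (g i).1 * ((M i).1 * Pool.HMG.dg (v i)) * k.1 := by
          simp only [Matrix.mul_assoc]
      _ = γ.1.map (Pool.HMG.em i) * (g i).1 * Pool.HMG.dg (sg (p i) * v i + t i) *
            (k'.1 * k.1) := by
          rw [hh2]
          simp only [Matrix.mul_assoc]
  · rintro ⟨γ, hγ, v, -, hv⟩
    refine ⟨γ, hγ, fun i => sg (p i) * (v i - t i), Set.mem_univ _, fun i => ?_⟩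
    obtain ⟨k, hk, hh⟩ := hv i
    obtain ⟨k', hk', hh'⟩ := ht i (sg (p i) * (v i - t i))
    have e0 : sg (p i) * (sg (p i) * (v i - t i)) + t i = v i := by
      rw [← mul_assoc, hsg]
      ring
    rw [e0] at hh'
    obtain ⟨hki, hkk⟩ := gfb_oinv k' hk'
    refine ⟨k'⁻¹ * k, gfb_omul _ _ hki hk, ?_⟩
    have e1 : (g i * M i : S2).1 = (g i).1 * (M i).1 := rfl
    have e2 : (k'⁻¹ * k : S2).1 = (k'⁻¹ : S2).1 * k.1 := rfl
    have hh2 : (M i).1 * Pool.HMG.dg (sg (p i) * (v i - t i)) = Pool.HMG.dg (v i) * k'.1 := hh'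
    rw [hh, e1, e2]
    symm
    calc γ.1.map (Pool.HMG.em i) * ((g i).1 * (M i).1) *
          Pool.HMG.dg (sg (p i) * (v i - t i)) * ((k'⁻¹ : S2).1 * k.1)
        = γ.1.map (Pool.HMG.em i) * (g i).1 *
            ((M i).1 * Pool.HMG.dg (sg (p i) * (v i - t i))) * ((k'⁻¹ : S2).1 * k.1) := by
          simp only [Matrix.mul_assoc]
      _ = γ.1.map (Pool.HMG.em i) * (g i).1 * Pool.HMG.dg (v i) *
            (k'.1 * (k'⁻¹ : S2).1) * k.1 := by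
          rw [hh2]
          simp only [Matrix.mul_assoc]
      _ = γ.1.map (Pool.HMG.em i) * (g i).1 * Pool.HMG.dg (v i) * k.1 := by
          rw [hkk, Matrix.mul_one]

/-- `γ g` -/
noncomputable def gfbG (bas : BASS) (γ : HM) (g : Fin 2 → S2) : Fin 2 → S2 := fun i =>
  ⟨cm i γ.1 * (g i).1, by
    rw [Matrix.det_mul, bas.2.2.2.2.2.2.2.2.2.1, γ.2, bas.2.2.2.1, one_mul]
    exact (g i).2⟩

theorem gfb_left (bas : BASS) (Γ : Subgroup HM) (δ : HM) (hδ : δ ∈ Γ) (g : Fin 2 → S2) :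
    flat Γ (gfbG bas δ g) Set.univ = flat Γ g Set.univ := by
  have hmul : ∀ (γ δ : HM) (i : Fin 2), cm i (γ * δ : HM).1 = cm i γ.1 * cm i δ.1 :=
    fun γ δ i => bas.2.2.2.2.2.2.2.2.1 i γ.1 δ.1
  ext h
  constructor
  · rintro ⟨γ, hγ, v, -, hv⟩
    refine ⟨γ * δ, Γ.mul_mem hγ hδ, v, Set.mem_univ _, fun i => ?_⟩
    obtain ⟨k, hk, hh⟩ := hv i
    refine ⟨k, hk, ?_⟩
    rw [hh]
    change cm i γ.1 * (cm i δ.1 * (g i).1) * Pool.HMG.dg (v i) * k.1 =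
      cm i (γ * δ : HM).1 * (g i).1 * Pool.HMG.dg (v i) * k.1
    rw [hmul]
    simp only [Matrix.mul_assoc]
  · rintro ⟨γ, hγ, v, -, hv⟩
    refine ⟨γ * δ⁻¹, Γ.mul_mem hγ (Γ.inv_mem hδ), v, Set.mem_univ _, fun i => ?_⟩
    obtain ⟨k, hk, hh⟩ := hv i
    refine ⟨k, hk, ?_⟩
    rw [hh]
    change cm i γ.1 * (g i).1 * Pool.HMG.dg (v i) * k.1 =
      cm i (γ * δ⁻¹ : HM).1 * (cm i δ.1 * (g i).1) * Pool.HMG.dg (v i) * k.1
    rw [← Matrix.mul_assoc (cm i (γ * δ⁻¹ : HM).1), ← hmul, inv_mul_cancel_right]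

/-- the flat of a left coset `γ Γ`: the flat of `γ⁻¹ g0` -/
noncomputable def gfbF (bas : BASS) (Γ : Subgroup HM) (g0 : Fin 2 → S2) :
    HM ⧸ Γ → Set (Fin 2 → S2) :=
  Quotient.lift (fun γ : HM => flat Γ (gfbG bas γ⁻¹ g0) Set.univ) (by
    intro a b hab
    have h1 : a⁻¹ * b ∈ Γ := QuotientGroup.leftRel_apply.1 hab
    have h3 : gfbG bas a⁻¹ g0 = gfbG bas (a⁻¹ * b) (gfbG bas b⁻¹ g0) := by
      funext i
      apply Subtype.ext
      change cm i (a⁻¹ : HM).1 * (g0 i).1 = cm i (a⁻¹ * b : HM).1 * (cm i (b⁻¹ : HM).1 * (g0 i).1)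
      rw [← Matrix.mul_assoc, ← bas.2.2.2.2.2.2.2.2.1]
      have h4 : (a⁻¹ * b : HM).1 * (b⁻¹ : HM).1 = (a⁻¹ : HM).1 := by
        have : (a⁻¹ * b * b⁻¹ : HM) = a⁻¹ := by group
        exact congrArg Subtype.val this
      rw [h4]
    show flat Γ (gfbG bas a⁻¹ g0) Set.univ = flat Γ (gfbG bas b⁻¹ g0) Set.univ
    rw [h3]
    exact gfb_left bas Γ _ h1 _)

theorem gfb_thm (bas : BASS) (dat : DATS) (eq2 : EQ2S) : GFBS := by
  intro Γ hΓ g0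
  have hfin : Finite (HM ⧸ Γ) := by
    have h0 : Nat.card (HM ⧸ Γ) ≠ 0 := by
      rw [← Subgroup.index_eq_card]
      exact hΓ
    exact Nat.finite_of_card_ne_zero h0
  have hsub : {F : Set (Fin 2 → S2) | ∃ g, F = flat Γ g Set.univ ∧ fl g = fl g0} ⊆
      Set.range (gfbF bas Γ g0) := by
    rintro F ⟨g, rfl, hg⟩
    obtain ⟨γ, M, p, hMo, hgM⟩ := eq2 g g0 hg
    refine ⟨((γ⁻¹ : HM) : HM ⧸ Γ), ?_⟩
    show flat Γ (gfbG bas (γ⁻¹)⁻¹ g0) Set.univ = flat Γ g Set.univ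
    have h1 : g = fun i => gfbG bas γ g0 i * M i := by
      funext i
      exact Subtype.ext (hgM i)
    rw [inv_inv, h1, gfb_mon dat Γ _ M p hMo]
  have hr : (Set.range (gfbF bas Γ g0)).Finite := Set.finite_range _
  refine ⟨hr.subset hsub, ?_⟩
  calc {F : Set (Fin 2 → S2) | ∃ g, F = flat Γ g Set.univ ∧ fl g = fl g0}.ncard
      ≤ (Set.range (gfbF bas Γ g0)).ncard := Set.ncard_le_ncard hsub hr
    _ ≤ Nat.card (HM ⧸ Γ) := by
        rw [← Set.image_univ, ← Set.ncard_univ]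
        exact Set.ncard_image_le Set.finite_univ
    _ = Γ.index := (Subgroup.index_eq_card Γ).symm

end Pool.HMF
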