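import Pool.Agent.H29.HMF.Stmts

set_option autoImplicit false

open Matrix

namespace Pool.HMF

theorem ij2_comp (η : HM) (v : Fin 2 → ℤ√2) :
    η.1 * Wm η v = Wm η v * !![0, -1; 1, η.1.trace] := by
  have hdet : η.1 0 0 * η.1 1 1 - η.1 0 1 * η.1 1 0 = 1 := by
    rw [← Matrix.det_fin_two]
    exact η.2
  ext a b : 1
  have h2 : ∀ x y z w : ℤ√2, ∀ A : Matrix (Fin 2) (Fin 2) (ℤ√2), ∀ a : Fin 2,
      (A * !![x, y; z, w]) a 0 = A a 0 * x + A a 1 * z ∧
      (A * !![x, y; z, w]) a 1 = A a 0 * y + A a 1 * w := by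
    intro x y z w A a
    constructor <;> simp [Matrix.mul_apply, Fin.sum_univ_two]
  have hm : ∀ a : Fin 2, η.1.mulVec v a = η.1 a 0 * v 0 + η.1 a 1 * v 1 := by
    intro a
    simp [Matrix.mulVec, dotProduct, Fin.sum_univ_two]
  have hw : ∀ a : Fin 2, Wm η v a 0 = v a ∧ Wm η v a 1 = η.1.mulVec v a := by
    intro a
    fin_cases a <;> simp [Wm]
  have hb : b = 0 ∨ b = 1 := by omega
  have ha : a = 0 ∨ a = 1 := by omega
  have hl : (η.1 * Wm η v) a b = η.1 a 0 * Wm η v 0 b + η.1 a 1 * Wm η v 1 b := by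
    simp [Matrix.mul_apply, Fin.sum_univ_two]
  rw [hl, Matrix.trace_fin_two]
  rcases hb with rfl | rfl
  · rw [(h2 _ _ _ _ _ _).1, (hw 0).1, (hw 1).1, (hw a).1, (hw a).2, hm a]
    ring
  · rw [(h2 _ _ _ _ _ _).2, (hw 0).2, (hw 1).2, (hw a).1, (hw a).2, hm a, hm 0, hm 1]
    rcases ha with rfl | rfl
    · linear_combination (-(v 0)) * hdet
    · linear_combination (-(v 1)) * hdet

theorem ij2_mon (M : S2) (a b a' b' : ℝ) (hab : a ≠ b) (h1 : a * b = 1) (h2 : a' * b' = 1)
    (h : diagonal ![a, b] * M.1 = M.1 * diagonal ![a', b']) : ∃ p : Bool, Mon p M.1 := by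
  have hdet : M.1 0 0 * M.1 1 1 - M.1 0 1 * M.1 1 0 = 1 := by
    rw [← Matrix.det_fin_two]
    exact M.2
  have e : ∀ i j : Fin 2, (![a, b] : Fin 2 → ℝ) i * M.1 i j = M.1 i j * (![a', b'] : Fin 2 → ℝ) j := by
    intro i j
    have := congrFun (congrFun h i) j
    rwa [Matrix.diagonal_mul, Matrix.mul_diagonal] at this
  have e00 : (a - a') * M.1 0 0 = 0 := by
    have := e 0 0
    simp at this
    linear_combination this
  have e01 : (a - b') * M.1 0 1 = 0 := by
    have := e 0 1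
    simp at this
    linear_combination this
  have e10 : (b - a') * M.1 1 0 = 0 := by
    have := e 1 0
    simp at this
    linear_combination this
  have e11 : (b - b') * M.1 1 1 = 0 := by
    have := e 1 1
    simp at this
    linear_combination this
  by_cases haa : a = a'
  · refine ⟨false, Or.inl ⟨rfl, ?_, ?_⟩⟩
    · have ha0 : a ≠ 0 := fun h0 => by
        rw [h0, zero_mul] at h1
        exact zero_ne_one h1
      have hbb : b = b' := by
        rw [← haa] at h2
        exact mul_left_cancel₀ ha0 (h1.trans h2.symm)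
      rcases mul_eq_zero.1 e01 with h3 | h3
      · exact absurd (by linarith : a = b) hab
      · exact h3
    · rcases mul_eq_zero.1 e10 with h3 | h3
      · exact absurd (by linarith : a = b) hab
      · exact h3
  · have h00 : M.1 0 0 = 0 := (mul_eq_zero.1 e00).resolve_left (sub_ne_zero.2 haa)
    have h01 : M.1 0 1 ≠ 0 := fun h3 => by
      rw [h00, h3, zero_mul, zero_mul, sub_zero] at hdet
      exact zero_ne_one hdet
    have hab' : a - b' = 0 := (mul_eq_zero.1 e01).resolve_right h01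
    refine ⟨true, Or.inr ⟨rfl, h00, ?_⟩⟩
    rcases mul_eq_zero.1 e11 with h3 | h3
    · exact absurd (by linarith : a = b) hab
    · exact h3

theorem ij2_thm (bas : BASS) (mf2 : MF2S) (lf2 : LF2S) : IJ2S := by
  intro g g' η η' l l' ε ε' v v' hR hR' hl htr hdet hd0 hdvd
  obtain ⟨hmul, _, _, hone, hzero, hinj, _, _, hcmul, hcdet, _, _, _⟩ := bas
  have canc : ∀ x y : ℤ√2, y ≠ 0 → x * y = 0 → x = 0 := by
    intro x y hy hxy
    have h1 : em 0 x * em 0 y = 0 := by rw [← hmul, hxy, hzero]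
    rcases mul_eq_zero.1 h1 with h2 | h2
    · exact hinj 0 x 0 (by rw [h2, hzero])
    · exact absurd (hinj 0 y 0 (by rw [h2, hzero])) hy
  obtain ⟨W, hW⟩ : ∃ W, W = Wm η v := ⟨_, rfl⟩
  obtain ⟨W', hW'⟩ : ∃ W', W' = Wm η' v' := ⟨_, rfl⟩
  have hC : η.1 * W = W * !![0, -1; 1, η.1.trace] := by rw [hW]; exact ij2_comp η v
  have hC' : η'.1 * W' = W' * !![0, -1; 1, η.1.trace] := by rw [hW', htr]; exact ij2_comp η' v'
  rw [← hW, ← hW'] at hdet hdvd
  rw [← hW] at hd0
  choose E hE using hdvd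
  obtain ⟨U, hU⟩ : ∃ U : Matrix (Fin 2) (Fin 2) (ℤ√2), U = 1 + Matrix.of E * W.adjugate :=
    ⟨_, rfl⟩
  have hWW : W' = U * W := by
    rw [hU, add_mul, one_mul, Matrix.mul_assoc, Matrix.adjugate_mul, Matrix.mul_smul,
      Matrix.mul_one]
    ext a b : 1
    rw [Matrix.add_apply, Matrix.smul_apply, Matrix.of_apply, smul_eq_mul, ← hE a b]
    ring
  have hUdet : U.det = 1 := by
    have h1 : W'.det = U.det * W.det := by rw [hWW, Matrix.det_mul]
    have h2 : (U.det - 1) * W.det = 0 := by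
      rw [sub_mul, one_mul, ← h1, hdet, sub_self]
    exact sub_eq_zero.1 (canc _ _ hd0 h2)
  have hUη : η'.1 * U = U * η.1 := by
    have h1 : (η'.1 * U - U * η.1) * W = 0 := by
      rw [sub_mul, Matrix.mul_assoc, ← hWW, hC', hWW, Matrix.mul_assoc, Matrix.mul_assoc, ← hC,
        sub_self]
    have h2 : W.det • (η'.1 * U - U * η.1) = 0 := by
      calc W.det • (η'.1 * U - U * η.1) = (η'.1 * U - U * η.1) * (W * W.adjugate) := by
            rw [Matrix.mul_adjugate, Matrix.mul_smul, Matrix.mul_one]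
        _ = ((η'.1 * U - U * η.1) * W) * W.adjugate := (Matrix.mul_assoc _ _ _).symm
        _ = 0 := by rw [h1, Matrix.zero_mul]
    have h3 : η'.1 * U - U * η.1 = 0 := by
      ext a b : 1
      have h4 : W.det * (η'.1 * U - U * η.1) a b = 0 := by
        have := congrFun (congrFun h2 a) b
        rwa [Matrix.smul_apply, smul_eq_mul, Matrix.zero_apply] at this
      rw [Matrix.zero_apply]
      exact canc _ _ hd0 (by rw [mul_comm]; exact h4)
    exact sub_eq_zero.1 h3
  let γ : HM := ⟨U, hUdet⟩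
  have hdet1 : ∀ i, (cm i U * (g i).1).det = 1 := by
    intro i
    rw [Matrix.det_mul, hcdet, hUdet, hone, one_mul]
    exact (g i).2
  let g1 : Fin 2 → S2 := fun i => ⟨cm i U * (g i).1, hdet1 i⟩
  have hg1 : fl g1 = fl g := lf2 g g1 γ fun i => rfl
  let M : Fin 2 → S2 := fun i => (g1 i)⁻¹ * g' i
  have hgM : g' = fun i => g1 i * M i := by
    funext i
    simp only [M]
    rw [mul_inv_cancel_left]
  have hMon : ∀ i, ∃ p : Bool, Mon p (M i).1 := by
    intro i
    obtain ⟨hε, h1⟩ := hR i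
    obtain ⟨hε', h1'⟩ := hR' i
    have hdg : ∀ (e x : ℝ), e • dg x = diagonal ![e * Real.exp x, e * Real.exp (-x)] := by
      intro e x
      unfold dg
      rw [← Matrix.diagonal_smul]
      congr 1
      ext j
      fin_cases j <;> simp
    rw [hdg] at h1 h1'
    have hprod : ∀ e x : ℝ, e ^ 2 = 1 → (e * Real.exp x) * (e * Real.exp (-x)) = 1 := by
      intro e x he
      have h2 : Real.exp x * Real.exp (-x) = 1 := by
        rw [← Real.exp_add]
        simp
      calc (e * Real.exp x) * (e * Real.exp (-x)) = e ^ 2 * (Real.exp x * Real.exp (-x)) := by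
            ring
        _ = 1 := by rw [he, h2, one_mul]
    refine ij2_mon (M i) (ε i * Real.exp (l i)) (ε i * Real.exp (-l i))
      (ε' i * Real.exp (l' i)) (ε' i * Real.exp (-l' i)) ?_ (hprod _ _ hε) (hprod _ _ hε') ?_
    · intro h2
      have he0 : ε i ≠ 0 := fun h3 => by
        rw [h3] at hε
        norm_num at hε
      have h3 := Real.exp_injective (mul_left_cancel₀ he0 h2)
      exact hl i (by linarith)
    · -- `D M = M D'`
      obtain ⟨Dg, hDg⟩ : ∃ Dg : Matrix (Fin 2) (Fin 2) ℝ,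
        Dg = diagonal ![ε i * Real.exp (l i), ε i * Real.exp (-l i)] := ⟨_, rfl⟩
      obtain ⟨Dg', hDg'⟩ : ∃ Dg' : Matrix (Fin 2) (Fin 2) ℝ,
        Dg' = diagonal ![ε' i * Real.exp (l' i), ε' i * Real.exp (-l' i)] := ⟨_, rfl⟩
      rw [← hDg] at h1
      rw [← hDg'] at h1'
      rw [← hDg, ← hDg']
      have h2 : cm i η'.1 * (g1 i).1 = (g1 i).1 * Dg := by
        change cm i η'.1 * (cm i U * (g i).1) = cm i U * (g i).1 * Dg
        rw [← Matrix.mul_assoc, ← hcmul, hUη, hcmul, Matrix.mul_assoc, h1, Matrix.mul_assoc]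
      have h3 : (M i).1 = ((g1 i)⁻¹ : S2).1 * (g' i).1 := rfl
      have h4 : ((g1 i)⁻¹ : S2).1 * (g1 i).1 = 1 := by
        have : ((g1 i)⁻¹ * g1 i : S2) = 1 := inv_mul_cancel _
        exact congrArg Subtype.val this
      have h5 : (g1 i).1 * ((g1 i)⁻¹ : S2).1 = 1 := by
        have : (g1 i * (g1 i)⁻¹ : S2) = 1 := mul_inv_cancel _
        exact congrArg Subtype.val this
      have h6 : Dg = ((g1 i)⁻¹ : S2).1 * (cm i η'.1 * (g1 i).1) := by
        rw [h2, ← Matrix.mul_assoc, h4, Matrix.one_mul]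
      calc Dg * (M i).1 = ((g1 i)⁻¹ : S2).1 * (cm i η'.1 * ((g1 i).1 * ((g1 i)⁻¹ : S2).1)) *
            (g' i).1 := by
            rw [h3, h6]
            simp only [Matrix.mul_assoc]
        _ = ((g1 i)⁻¹ : S2).1 * (cm i η'.1 * (g' i).1) := by
            rw [h5, Matrix.mul_one, Matrix.mul_assoc]
        _ = (M i).1 * Dg' := by
            rw [h1', h3, Matrix.mul_assoc]
  choose p hp using hMon
  rw [hgM, mf2 g1 M p hp, hg1]

end Pool.HMF
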